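import Pool.Agent.U360.TQ.Ar5

/-!
# MP_d9bae3_nt: Stark's conjecture over `ℚ` and the sets `T` with a non-integral Stark element

Let `H / F` be a finite abelian extension of number fields with group `G`, `S` a finite set of
places of `F` which contains the archimedean and the ramified ones, `v_1, ..., v_r` the places of
`S` which split completely, `#S ≥ r + 1`, `w_i` a place over `v_i` (`RubinData`). `Stark T` is
Stark's conjecture over `ℚ` for `T`, in Rubin's form: `φ (λ (u)) = Θ^{(r)}_{S,T}(0)` for some
`u ∈ e_r ℚ ⋀^r U_{S,T}`. `Rubin T` says that this `u` is integral: `ψ (u) ∈ ℤ[G]` for all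
`ψ = ψ_1 ∧ ... ∧ ψ_r`, `ψ_i ∈ Hom_{ℤ[G]}(U_{S,T}, ℤ[G])`. `Allowed T` is the condition on `T`.

The theorem: either `Stark T` and `Rubin T` hold for all admissible `T`, or the number of the
admissible sets `T` of norm at most `X` for which `Rubin T` is false is `X (log X) ^ (-β + o(1))`
with a rational number `β`, `0 ≤ β ≤ 1`. For each finite set `T` disjoint from `S`, `Stark T` is
true if and only if `β` is positive.
-/

set_option autoImplicit false

open NumberField IsDedekindDomain Filter Topology

noncomputable section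

namespace Pool.Agent.Results.MP_d9bae3_nt.LogExponent

open Pool.Agent.K3h30.RS

variable {F H G : Type} [Field F] [NumberField F] [Field H] [NumberField H] [Algebra F H]
  [CommGroup G] [Finite G] [MulSemiringAction G H]

/-- The number of the exceptional sets: the admissible finite sets `T` of prime ideals of `F` for
which the integral statement `Rubin T` is false and the product of the norms of the elements of `T`
is at most `X`. -/
def exceptions (D : RubinData F H G) (X : ℕ) : ℕ :=
  Nat.card {T : Finset (HeightOneSpectrum (𝓞 F)) // D.Allowed T ∧ ¬ D.Rubin T ∧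
    ∏ v ∈ T, Ideal.absNorm v.asIdeal ≤ X}

/-- Stark's conjecture over `ℚ` is true if and only if there are no exceptional sets or their number
is `X (log X) ^ (-β + o(1))` with `β > 0`; in any case `β` exists and is rational. -/
theorem result [IsGaloisGroup G F H] (D : RubinData F H G) :
    (∀ T : Finset (HeightOneSpectrum (𝓞 F)), Disjoint D.S T →
      D.Stark T ∧ (D.Allowed T → D.Rubin T)) ∨
    ∃ β : ℚ, 0 ≤ β ∧ β ≤ 1 ∧
      (∀ T : Finset (HeightOneSpectrum (𝓞 F)), Disjoint D.S T → (D.Stark T ↔ 0 < β)) ∧
      Tendsto (fun X : ℕ => Real.log ((exceptions D X : ℝ) / X) / Real.log (Real.log X)) atTop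
        (𝓝 (-(β : ℝ))) := by
  have hst : (∃ T, Disjoint D.S T ∧ D.Stark T) → ∀ T, Disjoint D.S T → D.Stark T :=
    ((Pool.Agent.K3h30.RS.main D).out 0 1).1
  rcases Pool.Agent.U360.TQ.log_exponent D with h | ⟨β, h0, h1, h2, h3⟩
  · left
    obtain ⟨L, i1, i2, i3, bad, hgal, hbad, -⟩ := Pool.Agent.U360.RS.frobenian D
    obtain ⟨v, hv, -⟩ := Pool.Agent.U360.RS.exists_prime F L 1 bad
    obtain ⟨u, e, -, s⟩ := h {v} (hbad v hv)
    intro T hT
    exact ⟨hst ⟨{v}, (hbad v hv).1, u, e, s⟩ T hT, h T⟩
  · right
    refine ⟨β, h0, h1, fun T hT => ⟨fun hs => h2.2 ⟨T, hT, hs⟩, fun hb => hst (h2.1 hb) T hT⟩, ?_⟩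
    exact h3

end Pool.Agent.Results.MP_d9bae3_nt.LogExponent
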